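import Pool.Agent.N733.TG.K
import Pool.Agent.Results.MP_4a0cc8_nt.PartnerWindows

/-!
# No congruences with a given curve for the invariants with height near functions of multiplicative functions

Let `f` be a positive multiplicative function of at most polynomial growth such that `f p ≤ M p` for the large primes `p`,
with different values at different large primes; for example Euler's function or the sum of the divisors. Let `α > 0`, `D ≥ 1`
(an arbitrary power), `θ < 1` and let `n` be the degree of the number fields considered. There is a number `n₀`, which depends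
on `n`, `D` and `θ` only, with the following property: for EVERY number field `K` of degree `n`, EVERY elliptic curve
`E₀ : y² = x³ + A₀x + B₀`, `A₀`, `B₀` in the integers of `K`, and every `U`, for all `m ≤ N` but `N / (log N)^U`, NO elliptic
curve `E` over `K` for which the height of the invariant satisfies `|H(j(E)) - α f(m)^D| ≤ f(m)^θ` is congruent to `E₀` modulo
some `k ≥ n₀`. More generally `G (f m)` takes the place of `α f(m)^D`, where `G` is any function with steps bounded below by a
positive constant and growth at most `v^D`. The values of `f` are in general taken with very large multiplicities, and so this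
does not follow from the size of the set of the invariants of the congruent curves.

Its size is bounded by the starting theorem `FewPartnersAllLevels` of this problem (in the form `partners_count` of the starting
file `PartnerWindows`).
-/

set_option autoImplicit false

open NumberField

namespace Pool.Agent.Results.MP_4a0cc8_nt.MultiplicativeValues

open FewPartnersAllLevels (Congruent jInvariant)
open Pool.Agent.N733.TG (LM Expanding lm_totient lm_sigma keep_windows expanding_pow)
open PartnerWindows (Partners partners_count)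

/-- **No congruences near the values of multiplicative functions.** For all `n`, `D ≥ 1` and `0 ≤ θ < 1` there is `n₀` such
that for all `f` multiplicative and positive, of at most polynomial growth, with `f p ≤ M p` at the large primes and injective
there, all `G` with steps `≥ a > 0` and growth at most `v^D`, all number fields `K` of degree `n` and all elliptic curves
`E₀ : y² = x³ + A₀x + B₀` with `A₀`, `B₀` integral: for every `U` and all large `N`, for all `m ≤ N` but `N / (log N)^U`, NO
elliptic curve `E : y² = x³ + Ax + B` over `K` with `|H(j(E)) - G (f m)| ≤ f(m)^θ` satisfies `E[k] ≅ E₀[k]` for some `k ≥ n₀`.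
Euler's function and the sum of the divisors are examples of such functions `f`, and `α v^D` with `α > 0`, `D ≥ 1` is an
example of `G`. -/
theorem result :
    (∀ (n : ℕ) (D θ : ℝ), 1 ≤ D → 0 ≤ θ → θ < 1 → ∃ n₀ : ℕ, ∀ f : ℕ → ℕ, LM f → ∀ G : ℕ → ℝ, Expanding G D →
      ∀ (K : Type) [Field K] [NumberField K], Module.finrank ℚ K = n → ∀ A₀ B₀ : 𝓞 K, 4 * A₀ ^ 3 + 27 * B₀ ^ 2 ≠ 0 →
      ∀ U : ℕ, ∃ N₀ : ℕ, ∀ N : ℕ, N₀ ≤ N →
      ({m : ℕ | 1 ≤ m ∧ m ≤ N ∧ ¬ ∀ A B : K, 4 * A ^ 3 + 27 * B ^ 2 ≠ 0 →
        |Height.mulHeight₁ (jInvariant A B) - G (f m)| ≤ (f m : ℝ) ^ θ →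
          ∀ k : ℕ, n₀ ≤ k → ¬ Congruent k A B (A₀ : K) (B₀ : K)}.ncard : ℝ) ≤ N / Real.log N ^ U) ∧
    (LM Nat.totient ∧ LM (fun m => ∑ d ∈ m.divisors, d)) ∧
    ∀ α D : ℝ, 0 < α → 1 ≤ D → Expanding (fun v => α * (v : ℝ) ^ D) D := by
  refine ⟨fun n D θ hD hθ hθ1 => ?_, ⟨lm_totient, lm_sigma⟩, fun α D hα hD => expanding_pow hα hD⟩
  obtain ⟨ε, hε⟩ : ∃ ε, ε = (1 - θ) / (2 * D) := ⟨_, rfl⟩
  have hε0 : 0 < ε := by
    rw [hε]
    apply div_pos (by linarith) (by linarith)
  have hεD : D * ε = (1 - θ) / 2 := by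
    rw [hε]
    field_simp
  obtain ⟨n₀, h⟩ := partners_count n ε hε0
  refine ⟨n₀, fun f hf G hG K _ _ hK A₀ B₀ h0 U => ?_⟩
  obtain ⟨C, hC, h'⟩ := h K hK A₀ B₀ h0
  obtain ⟨N₀, hN₀⟩ := keep_windows (Partners n₀ (A₀ : K) (B₀ : K)) (fun x => Height.mulHeight₁ x) hf hG (s := ε) (κ := θ)
    hε0.le hθ (by rw [hεD]; linarith) (fun η hη => by
      refine ⟨C, fun X hX => ⟨(h' X hX).1, (h' X hX).2.trans ?_⟩⟩
      apply mul_le_mul_of_nonneg_left _ hC
      exact Real.rpow_le_rpow_of_exponent_le hX (by linarith)) U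
  refine ⟨N₀, fun N hN => le_trans ?_ (hN₀ N hN)⟩
  have hfin : {m : ℕ | 1 ≤ m ∧ m ≤ N ∧ ∃ x ∈ Partners n₀ (A₀ : K) (B₀ : K),
      |Height.mulHeight₁ x - G (f m)| ≤ (f m : ℝ) ^ θ}.Finite := by
    apply (Set.finite_Icc 1 N).subset
    intro m hm
    exact ⟨hm.1, hm.2.1⟩
  have hsub : {m : ℕ | 1 ≤ m ∧ m ≤ N ∧ ¬ ∀ A B : K, 4 * A ^ 3 + 27 * B ^ 2 ≠ 0 →
        |Height.mulHeight₁ (jInvariant A B) - G (f m)| ≤ (f m : ℝ) ^ θ →
          ∀ k : ℕ, n₀ ≤ k → ¬ Congruent k A B (A₀ : K) (B₀ : K)} ⊆
      {m : ℕ | 1 ≤ m ∧ m ≤ N ∧ ∃ x ∈ Partners n₀ (A₀ : K) (B₀ : K),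
        |Height.mulHeight₁ x - G (f m)| ≤ (f m : ℝ) ^ θ} := by
    rintro m ⟨h1, h2, h3⟩
    push Not at h3
    obtain ⟨A, B, hAB, hw, k, hk, hcon⟩ := h3
    exact ⟨h1, h2, jInvariant A B, ⟨A, B, hAB, rfl, k, hk, hcon⟩, hw⟩
  exact_mod_cast Set.ncard_le_ncard hsub hfin

end Pool.Agent.Results.MP_4a0cc8_nt.MultiplicativeValues
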