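import Pool.Agent.N999.TH.Main

/-!
# MP_4a0cc8_nt: thin sequences of elliptic curves over all number fields, with one set of density zero

Let `P_0, P_1, P_2, …` be a sequence of generalised polynomials `P(t) = ∑ a_x t ^ x` (finitely many
real exponents, real coefficients) with distinct leading exponents which are positive and not integers
and have positive coefficients; for example `P_l(t) = t ^ (2 l + √2)`, or `P_l(t) = t ^ (√2 / (l + 1))`.
For a number field `K` with an integral basis `ω_1, …, ω_m` and `2 m` of the `P_l`, let

`E_t : y² = x³ + A_t x + B_t`, `A_t = ∑ ⌊P_{σ(j)}(t)⌋ ω_j`, `B_t = ∑ ⌊P_{τ(j)}(t)⌋ ω_j`.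

So one parameter `t` determines all coordinates: these are `N` of about `N ^ (sum of the exponents)`
curves of this size.

**Theorem.** There is ONE set `E` of integers of natural density zero, also of relative density zero in
the set of the primes, which depends on the `P_l` only, such that for ALL number fields `K`, all integral
bases, all choices of `2 m` different `P_l` and all `D`, for all but finitely many integers `t` outside
`E`: `E_t` is an elliptic curve, and for every `n ≥ 2` there are `D` prime ideals of norm above `D`
such that EVERY elliptic curve `E₀` over `K` with `E_t[n] ≅ E₀[n]` has bad reduction at all of them.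

So no fixed curve `E₀`, and no curve with good reduction outside a fixed set of primes, is congruent to
`E_t` modulo any `n ≥ 2`, with finitely many exceptions `t` outside `E`; the number of the primes
of bad reduction of the curves congruent to `E_t` tends to infinity.

Proof. The vectors of the integer parts are equidistributed modulo `q ≤ N ^ δ`, over the integers and
over the primes (exponential sums, library `Pool.Agent.Y961.JR`; helper666). By Turan's sieve, applied to
disjoint ranges of primes, with the local densities and the divergence of the sum over the primes of degree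
one of the project FMK of helper275, almost all `t` are such that `4 A_t³ + 27 B_t²` is divisible exactly
once by prime ideals of degree one over `D + 1` different primes above `D`. By the ramification argument
of the same project a curve congruent to `E_t` modulo `n` has bad reduction at all those prime ideals which
do not divide the smallest prime factor of `n`. The condition on `t` depends only on the structure constants
of the integral basis, so there are countably many conditions, and a diagonal argument gives one
set `E`.
-/

set_option autoImplicit false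

open WeierstrassCurve NumberField
open scoped Classical

namespace Pool.Agent.Results.MP_4a0cc8_nt.OneNullSetManyBadPrimes

/-- `c` is the largest exponent of the generalised polynomial `∑ a_x t ^ x`; it is positive and not an
integer and has a positive coefficient. -/
def Admissible (F : Finset ℝ) (a : ℝ → ℝ) (c : ℝ) : Prop :=
  c ∈ F ∧ (∀ x ∈ F, x ≤ c) ∧ 0 < c ∧ (∀ m : ℕ, c ≠ m) ∧ 0 < a c

/-- `E` has density zero relative to the sets `S N`. -/
def NullIn (S : ℕ → Finset ℕ) (E : Set ℕ) : Prop :=
  ∀ ε : ℝ, 0 < ε → ∃ N₀ : ℕ, ∀ N : ℕ, N₀ ≤ N →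
    ({t : ℕ | t ∈ S N ∧ t ∈ E}.ncard : ℝ) ≤ ε * (S N).card

section
variable {K : Type} [Field K] [NumberField K]

/-- The curve `y² = x³ + Ax + B` over `K`, `A`, `B` integers of `K`. -/
def curve (A B : 𝓞 K) : WeierstrassCurve K := ⟨0, 0, 0, (A : K), (B : K)⟩

/-- The group of its points over the algebraic closure of `K`. -/
abbrev Points (A B : 𝓞 K) : Type := ((curve A B).baseChange (AlgebraicClosure K)).toAffine.Point

/-- The action of a `K`-automorphism `σ` of the algebraic closure on the points. -/
noncomputable def galois (A B : 𝓞 K) (σ : AlgebraicClosure K ≃ₐ[K] AlgebraicClosure K) :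
    Points A B →+ Points A B :=
  WeierstrassCurve.Affine.Point.map
    (σ : AlgebraicClosure K →ₐ[K] AlgebraicClosure K)

/-- The `n`-torsion of `y² = x³ + Ax + B` and that of `y² = x³ + A'x + B'` are isomorphic as Galois
modules: some map between the groups of points restricts to a bijective additive map of the
`n`-torsion which commutes with the Galois group of `K`. -/
def Congruent (n : ℕ) (A B A' B' : 𝓞 K) : Prop :=
  ∃ f : Points A B → Points A' B', (∀ P Q, n • P = 0 → n • Q = 0 → f (P + Q) = f P + f Q) ∧
    Set.BijOn f {P | n • P = 0} {Q | n • Q = 0} ∧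
    ∀ (σ : AlgebraicClosure K ≃ₐ[K] AlgebraicClosure K) (P : Points A B), n • P = 0 →
      f (galois A B σ P) = galois A' B' σ (f P)

/-- The discriminant of `y² = x³ + Ax + B`, up to the factor `-16`. -/
def disc (A B : 𝓞 K) : 𝓞 K := 4 * A ^ 3 + 27 * B ^ 2

/-- For every `n ≥ 2` there are `D` prime ideals of norm above `D` which contain the discriminants of ALL
equations `y² = x³ + A₀x + B₀` such that the `n`-torsion is isomorphic to that of `y² = x³ + Ax + B`: all
elliptic curves congruent to `y² = x³ + Ax + B` modulo `n` have bad reduction there. -/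
def ManyBadPrimes (D : ℕ) (A B : 𝓞 K) : Prop :=
  ∀ n : ℕ, 2 ≤ n → ∃ S : Finset (Ideal (𝓞 K)), S.card = D ∧
    (∀ 𝔮 ∈ S, 𝔮.IsPrime ∧ D < Ideal.absNorm 𝔮) ∧
    ∀ A₀ B₀ : 𝓞 K, Congruent n A B A₀ B₀ → ∀ 𝔮 ∈ S, disc A₀ B₀ ∈ 𝔮

/-- The integer of `K` whose coordinates in the integral basis `ω` are the integer parts of the values
at `t` of the generalised polynomials `P_{σ(j)}`. -/
noncomputable def coefficient {m : ℕ} (ω : Module.Basis (Fin m) ℤ (𝓞 K)) (F : ℕ → Finset ℝ)
    (a : ℕ → ℝ → ℝ) (σ : Fin m → ℕ) (t : ℕ) : 𝓞 K :=
  ∑ j, ⌊∑ x ∈ F (σ j), a (σ j) x * (t : ℝ) ^ x⌋ • ω j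

end

/-- **One set of density zero for the congruences of thin sequences of elliptic curves over all number
fields.** -/
theorem result (F : ℕ → Finset ℝ) (a : ℕ → ℝ → ℝ) (c : ℕ → ℝ) (h : ∀ l, Admissible (F l) (a l) (c l))
    (hc : Function.Injective c) :
    ∃ E : Set ℕ, NullIn (fun N => Finset.Ioc N (2 * N)) E ∧
      NullIn (fun N => (Finset.Ioc N (2 * N)).filter Nat.Prime) E ∧
      ∀ (K : Type) [Field K] [NumberField K] (m : ℕ) (ω : Module.Basis (Fin m) ℤ (𝓞 K))
        (σ τ : Fin m → ℕ), Function.Injective (Sum.elim σ τ) → ∀ D : ℕ,
        {t : ℕ | t ∉ E ∧ ¬ (disc (coefficient ω F a σ t) (coefficient ω F a τ t) ≠ 0 ∧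
          ManyBadPrimes D (coefficient ω F a σ t) (coefficient ω F a τ t))}.Finite := by
  obtain ⟨E, e1, e2, e3⟩ := Pool.Agent.N999.TH.main h hc
  refine ⟨E, e1, e2, ?_⟩
  intro K _ _ m ω σ τ hst D
  refine (e3 K m ω σ τ hst (D + 1)).subset ?_
  rintro t ⟨h1, h2⟩
  refine ⟨h1, fun hM => h2 ?_⟩
  exact Pool.Agent.N999.TH.concl hM

end Pool.Agent.Results.MP_4a0cc8_nt.OneNullSetManyBadPrimes
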