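import Pool.Agent.N24.RW.Crit
import Pool.Agent.N24.RW.Clo
import Pool.Agent.N24.RW.Orb
import Pool.Agent.N24.RW.Erg
import Pool.Agent.N24.RW.Main
import Pool.Agent.N342.ORB.EC

/-!
# MP_4a0cc8_nt: congruences of elliptic curves along random orbits of thin groups

Let `Γ` be a group of integral matrices with `r` rows that is generated by `s_0, …, s_m` and Zariski
dense in `SL_r`, possibly of infinite index in `SL_r(ℤ)`.  Start with a vector `v ≠ 0` and multiply it
by random generators: `c_0 = v`, `c_{n+1} = s_{w(n)} c_n`.  For a number field `K` with an integral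
basis `ω_1, …, ω_k` and `2 k ≤ r` different coordinates `σ(j)`, `τ(j)` let

`E_n : y² = x³ + A_n x + B_n`, `A_n = ∑ c_n(σ(j)) ω_j`, `B_n = ∑ c_n(τ(j)) ω_j`.

**Theorem.** Almost surely there is ONE set `E` of times `n` of density zero such that for ALL number
fields `K` (of degree at most `r / 2`), all integral bases, all choices of the coordinates and all `D`,
for all but finitely many `n` outside `E`: `E_n` is an elliptic curve, and for every `N ≥ 2` there are
`D` prime ideals of norm above `D` such that EVERY elliptic curve `E₀` over `K` with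
`E_n[N] ≅ E₀[N]` has bad reduction at all of them.

So a fixed curve `E₀` is congruent to `E_n` modulo some `N ≥ 2` only for `n` in `E` and finitely many
other `n`. Moreover the exceptional parameter vectors form a set whose closure in the product of the
`ℤ_p ^ r` over all `p` prime to any `M` has Haar measure zero.

Proof. The random walk on the orbits of `v` modulo `q` is equidistributed, and these orbits contain a
positive proportion of all vectors (engine `Pool.Agent.N24.RW` of helper24). The primes are split into `D`
classes such that the sum of the local densities (project FMK of helper275, proof of helper999) over every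
class diverges; the parameter vectors for which there is no exact divisor of the discriminant of degree one
over a prime of a given class are a pronull set. By the ramification argument of FMK a curve congruent to
`E_n` modulo `N` has bad reduction at all those prime ideals which do not divide the smallest prime factor
of `N`. There are countably many structure constants of integral bases, so a diagonal argument gives one
set of times.
-/

set_option autoImplicit false

open WeierstrassCurve NumberField MeasureTheory Filter Topology
open Pool.Agent.N24.RW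
open scoped Classical

namespace Pool.Agent.Results.MP_4a0cc8_nt.RandomOrbits

section
variable {K : Type} [Field K] [NumberField K]

/-- The curve `y² = x³ + Ax + B` over `K`, `A`, `B` integers of `K`. -/
def curve (A B : 𝓞 K) : WeierstrassCurve K := ⟨0, 0, 0, (A : K), (B : K)⟩

/-- The group of its points over the algebraic closure of `K`. -/
abbrev Points (A B : 𝓞 K) : Type := ((curve A B).baseChange (AlgebraicClosure K)).toAffine.Point

/-- The action of a `K`-automorphism `σ` of the algebraic closure on the points. -/
noncomputable def galois (A B : 𝓞 K) (σ : AlgebraicClosure K ≃ₐ[K] AlgebraicClosure K) :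
    Points A B →+ Points A B :=
  WeierstrassCurve.Affine.Point.map
    (σ : AlgebraicClosure K →ₐ[K] AlgebraicClosure K)

/-- The `n`-torsion of `y² = x³ + Ax + B` and that of `y² = x³ + A'x + B'` are isomorphic as Galois
modules: some map between the groups of points restricts to a bijective additive map of the
`n`-torsion which commutes with the Galois group of `K`. -/
def Congruent (n : ℕ) (A B A' B' : 𝓞 K) : Prop :=
  ∃ f : Points A B → Points A' B', (∀ P Q, n • P = 0 → n • Q = 0 → f (P + Q) = f P + f Q) ∧
    Set.BijOn f {P | n • P = 0} {Q | n • Q = 0} ∧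
    ∀ (σ : AlgebraicClosure K ≃ₐ[K] AlgebraicClosure K) (P : Points A B), n • P = 0 →
      f (galois A B σ P) = galois A' B' σ (f P)

/-- The discriminant of `y² = x³ + Ax + B`, up to the factor `-16`. -/
def disc (A B : 𝓞 K) : 𝓞 K := 4 * A ^ 3 + 27 * B ^ 2

/-- For every `n ≥ 2` there are `D` prime ideals of norm above `D` which contain the discriminants of ALL
equations `y² = x³ + A₀x + B₀` such that the `n`-torsion is isomorphic to that of `y² = x³ + Ax + B`: all
elliptic curves congruent to `y² = x³ + Ax + B` modulo `n` have bad reduction there. -/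
def ManyBadPrimes (D : ℕ) (A B : 𝓞 K) : Prop :=
  ∀ n : ℕ, 2 ≤ n → ∃ S : Finset (Ideal (𝓞 K)), S.card = D ∧
    (∀ 𝔮 ∈ S, 𝔮.IsPrime ∧ D < Ideal.absNorm 𝔮) ∧
    ∀ A₀ B₀ : 𝓞 K, Congruent n A B A₀ B₀ → ∀ 𝔮 ∈ S, disc A₀ B₀ ∈ 𝔮

/-- `y² = x³ + Ax + B` is an elliptic curve, and all curves congruent to it have many bad primes. -/
def Good (D : ℕ) (A B : 𝓞 K) : Prop := disc A B ≠ 0 ∧ ManyBadPrimes D A B

/-- The integer of `K` whose coordinates in the integral basis `ω` are the coordinates of the vector
`c` with the indices `σ(j)`. -/
noncomputable def coefficient {m : ℕ} {ι : Type} (ω : Module.Basis (Fin m) ℤ (𝓞 K)) (σ : Fin m → ι)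
    (c : ι → ℤ) : 𝓞 K :=
  ∑ j, c (σ j) • ω j

end

/-- The set `E` of natural numbers has density zero. -/
def DensityZero (E : Set ℕ) : Prop :=
  Tendsto (fun N : ℕ => (({n : ℕ | n < N ∧ n ∈ E}.ncard : ℕ) : ℝ) / (N : ℝ)) atTop (𝓝 0)

/-- **Congruences of elliptic curves over all number fields along random orbits of thin groups.** -/
theorem result (ι : Type) [Fintype ι] [DecidableEq ι] :
    (∀ (K : Type) [Field K] [NumberField K] (m : ℕ) (ω : Module.Basis (Fin m) ℤ (𝓞 K))
      (σ τ : Fin m → ι), Function.Injective (Sum.elim σ τ) → ∀ D : ℕ,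
      ProNull {c : ι → ℤ | ¬ Good D (coefficient ω σ c) (coefficient ω τ c)}) ∧
    ∀ (W : Walk ι) (v : ι → ℤ), v ≠ 0 → ∀ᵐ w ∂(words W.m), ∃ E : Set ℕ, DensityZero E ∧
      ∀ (K : Type) [Field K] [NumberField K] (m : ℕ) (ω : Module.Basis (Fin m) ℤ (𝓞 K))
        (σ τ : Fin m → ι), Function.Injective (Sum.elim σ τ) → ∀ D : ℕ,
        {n : ℕ | n ∉ E ∧ ¬ Good D (coefficient ω σ (orb W v w n))
          (coefficient ω τ (orb W v w n))}.Finite := by
  constructor
  · intro K _ _ m ω σ τ hst D
    refine (t_CLO ι).1 _ _ ?_ (Pool.Agent.N342.ORB.null_K t_CRIT t_CLO ω hst (D + 1))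
    intro c hc hM
    exact hc (Pool.Agent.N999.TH.concl hM)
  · intro W v hv
    filter_upwards [Pool.Agent.N342.ORB.orbits t_CRIT t_CLO (t_MAIN t_ORB t_ERG) W v hv] with w hw
    obtain ⟨E, e1, e2⟩ := hw
    refine ⟨E, e1, ?_⟩
    intro K _ _ m ω σ τ hst D
    refine (e2 K m ω σ τ hst (D + 1)).subset ?_
    rintro n ⟨h1, h2⟩
    exact ⟨h1, fun hM => h2 (Pool.Agent.N999.TH.concl hM)⟩

end Pool.Agent.Results.MP_4a0cc8_nt.RandomOrbits
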