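import Pool.Agent.N676.RV.Pro
import Pool.Agent.Results.MP_4a0cc8_nt.RandomOrbits

/-!
# MP_4a0cc8_nt: congruences of elliptic curves over all number fields whose coefficients are in families of vectors of residues

Let `K` be a number field with an integral basis `ω_1, …, ω_m`. The elliptic curves are `E_c : y² = x³ + A_c x + B_c` with
`A_c = ∑ c(σ(j)) ω_j` and `B_c = ∑ c(τ(j)) ω_j`, where the `2 m` indices `σ(j)`, `τ(j)` of coordinates are different
(`coefficient`, from `RandomOrbits`). Here `c = c₀ + y_i`, `i ∈ s`, where `c₀` is any integral vector and the `y_i` are the least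
residues of vectors of residues modulo `q` whose Fourier coefficients at the nonzero frequencies are at most
`|s| / (Z (42 + 3 log q) ^ r)` (`Small`, `r` the number of the coordinates). There are very thin families of this kind
(`Examples`): products of one-dimensional families such as cosets of subgroups of order `≥ 5 p^(3/8+δ)` modulo primes `p` and sets
of quotients `j / r` modulo `p` of polylogarithmic size, and the points of polynomial curves modulo `p`.

**Theorem.** (1) For all number fields `K`, all integral bases, all choices of the coordinates, all `D` and `ε > 0` there is `Z₀`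
such that for all families of vectors with `Z ≥ Z₀` and all `c₀`, for all but `ε |s|` of the `i ∈ s`: `E_c` is an elliptic
curve, and for every `n ≥ 2` there are `D` prime ideals of norm above `D` such that EVERY elliptic curve `E₀` over `K`
with `E_c[n] ≅ E₀[n]` has bad reduction at all of them (`Good`, from `RandomOrbits`).

(2) For each sequence of families of vectors with `Z k → ∞` there are exceptional sets `E k` of members of the
families, of proportions tending to zero, such that for ALL number fields `K`, ALL integral bases, all choices of
the coordinates and all `D`, for all large `k`, the curves `E_c` for all members outside `E k` have this property.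

(3) The examples of families of vectors.

The proof: the vectors `c` for which `E_c` does not have the property are a pronull set (`RandomOrbits` of helper342; local analysis
of the project FMK of helper275, and helper999; engine of helper24); the families of vectors are uniformly distributed modulo all
integers up to a power of `Z` (helper384), so they have few members in a pronull set (helper676). There are countably many structure
constants of integral bases, so that one exceptional set suffices.
-/

set_option autoImplicit false

open NumberField Filter Pool.Agent.N24.RW Pool.Agent.N676.RV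

namespace Pool.Agent.Results.MP_4a0cc8_nt.ResidueVectors

open Pool.Agent.Results.MP_4a0cc8_nt.RandomOrbits (Good coefficient)

/-- **Congruences of elliptic curves over all number fields in families of vectors of residues.** -/
theorem result (ι : Type) [Fintype ι] :
    (∀ (K : Type) [Field K] [NumberField K] (m : ℕ) (ω : Module.Basis (Fin m) ℤ (𝓞 K))
      (σ τ : Fin m → ι), Function.Injective (Sum.elim σ τ) → ∀ D : ℕ,
      AlmostAll fun c : ι → ℤ => Good D (coefficient ω σ c) (coefficient ω τ c)) ∧
    (∀ F : Fams ι, ∃ E : ∀ k, Set (F.τ k), F.Thin E ∧
      ∀ (K : Type) [Field K] [NumberField K] (m : ℕ) (ω : Module.Basis (Fin m) ℤ (𝓞 K))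
        (σ τ : Fin m → ι), Function.Injective (Sum.elim σ τ) → ∀ D : ℕ,
        ∀ᶠ k in atTop, ∀ i ∈ F.s k, i ∉ E k →
          Good D (coefficient ω σ (F.v k i)) (coefficient ω τ (F.v k i))) ∧
    Examples := by
  classical
  refine ⟨?_, ?_, examples⟩
  · intro K _ _ m ω σ τ hst D ε hε
    obtain ⟨Z₀, h0⟩ := pro_fam ((Pool.Agent.Results.MP_4a0cc8_nt.RandomOrbits.result ι).1 K m ω σ τ hst D) ε hε
    refine ⟨Z₀, fun T q' _ S y Z hZ hsm c₀ => le_trans (ncard_mono fun i _ hi => ?_) (h0 T q' S y Z hZ hsm c₀)⟩
    intro hcon
    exact hcon hi
  · intro F
    obtain ⟨E, hE, h1⟩ := one_fam F (κ := Pool.Agent.N342.ORB.Data ι) Pool.Agent.N342.ORB.bad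
      (Pool.Agent.N342.ORB.null_bad t_CRIT t_CLO)
    refine ⟨E, hE, fun K _ _ m ω σ τ hst D => ?_⟩
    filter_upwards [h1 ⟨m, Pool.Agent.N999.TH.strc ω, σ, τ, D + 1⟩] with k hk i hi hiE
    by_contra hcon
    exact hk i hi hiE ⟨K, _, _, ω, rfl, hst, fun hM => hcon (Pool.Agent.N999.TH.concl hM)⟩

end Pool.Agent.Results.MP_4a0cc8_nt.ResidueVectors
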